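import Pool.Agent.H532R3.ME.Radial

set_option autoImplicit false

open MeasureTheory
open scoped RealInnerProductSpace

namespace Pool.Agent.Results.MP_ef05c8_mp.MediumNoSolution

open Pool.Agent.H532R3.ME

/-- Negative answer to the existence question for the Medium Equation. In every dimension `d ≥ 2`
there are admissible radial potentials whose Fourier transform takes a negative value, and for every
such potential `v` and every mass `m > 0` there is `ρ₀` such that for no density `ρ ≥ ρ₀` the Medium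
Equation has an integrable solution with values in `[0, 1]`. -/
theorem result (d : ℕ) (hd : 2 ≤ d) :
    (∃ v : E d → ℝ, Admissible v ∧ Radial v ∧ ∃ k₀ : E d, ∫ x, v x * Real.cos ⟪k₀, x⟫ < 0) ∧
    ∀ v : E d → ℝ, Admissible v → Radial v → (∃ k₀ : E d, ∫ x, v x * Real.cos ⟪k₀, x⟫ < 0) →
      ∀ m : ℝ, 0 < m → ∃ ρ₀ : ℝ, 0 < ρ₀ ∧ ∀ ρ, ρ₀ ≤ ρ → ¬ ∃ u : E d → ℝ, IsMediumSolution m ρ v u :=
  ⟨⟨vex, vex_admissible (by omega), vex_radial, vex_neg (by omega)⟩,
    fun _ hv hr ⟨k₀, hk₀⟩ _ hm => no_medium_of_radial hd hv hr k₀ hk₀ hm⟩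

end Pool.Agent.Results.MP_ef05c8_mp.MediumNoSolution
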